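import Pool.Agent.Q17.Hyp.Defs

/-! The double coset hypergroup of a group modulo a subgroup. -/

namespace Q17.Hyp



variable {G : Type} [Group G] (A : Subgroup G)

/-- double cosets `A g A` -/
abbrev DC : Type := DoubleCoset.Quotient (A : Set G) (A : Set G)

/-- the class of `g` -/
def mk (g : G) : DC A := DoubleCoset.mk A A g

variable {A}

lemma mk_eq {a b : G} : mk A a = mk A b ↔ ∃ h ∈ A, ∃ k ∈ A, b = h * a * k :=
  DoubleCoset.eq A A a b

lemma mk_surj (p : DC A) : ∃ g, mk A g = p := ⟨_, DoubleCoset.out_eq' A A p⟩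

lemma mk_mul_right (a k : G) (hk : k ∈ A) : mk A (a * k) = mk A a :=
  (mk_eq.mpr ⟨1, A.one_mem, k, hk, by simp⟩).symm

lemma mk_mul_left (a h : G) (hh : h ∈ A) : mk A (h * a) = mk A a :=
  (mk_eq.mpr ⟨h, hh, 1, A.one_mem, by simp⟩).symm

lemma mk_one_iff {g : G} : mk A g = mk A 1 ↔ g ∈ A := by
  constructor
  · intro h
    obtain ⟨a, ha, b, hb, hab⟩ := mk_eq.mp h.symm
    rw [hab, mul_one]
    exact A.mul_mem ha hb
  · intro h
    have := mk_mul_right (A := A) 1 g h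
    rwa [one_mul] at this

/-- the map `AgA ↦ A g⁻¹ A` -/
def starDC : DC A → DC A :=
  Quotient.map (fun g => g⁻¹) (by
    intro a b hab
    have h1 : mk A a = mk A b := Quotient.sound hab
    obtain ⟨x, hx, y, hy, hxy⟩ := mk_eq.mp h1
    have h2 : mk A a⁻¹ = mk A b⁻¹ :=
      mk_eq.mpr ⟨y⁻¹, A.inv_mem hy, x⁻¹, A.inv_mem hx, by rw [hxy]; group⟩
    exact Quotient.exact h2)

lemma starDC_mk (g : G) : starDC (mk A g) = mk A g⁻¹ := rfl

/-- the product of double cosets -/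
def mulDC (p q : DC A) : Set (DC A) := {r | ∃ x y, mk A x = p ∧ mk A y = q ∧ mk A (x * y) = r}

variable (A) in
/-- The double coset hypergroup `G // A`. -/
def hyp : Hypergroup (DC A) where
  mul := mulDC
  one := mk A 1
  star := starDC
  assoc := by
    intro p q r
    ext t
    simp only [Set.mem_iUnion, exists_prop]
    constructor
    · rintro ⟨s, ⟨y, z, hy, hz, hs⟩, x, w, hx, hw, ht⟩
      obtain ⟨a, ha, b, hb, hab⟩ := mk_eq.mp (hs.trans hw.symm)
      refine ⟨mk A (x * (a * y)), ⟨x, a * y, hx, by rw [mk_mul_left _ _ ha, hy], rfl⟩,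
        x * (a * y), z * b, rfl, by rw [mk_mul_right _ _ hb, hz], ?_⟩
      rw [← ht, hab]
      congr 1
      group
    · rintro ⟨s, ⟨x, y, hx, hy, hs⟩, w, z, hw, hz, ht⟩
      obtain ⟨a, ha, b, hb, hab⟩ := mk_eq.mp (hs.trans hw.symm)
      refine ⟨mk A (y * (b * z)), ⟨y, b * z, hy, by rw [mk_mul_left _ _ hb, hz], rfl⟩,
        a * x, y * (b * z), by rw [mk_mul_left _ _ ha, hx], rfl, ?_⟩
      rw [← ht, hab]
      congr 1
      group
  mul_one := by
    intro s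
    ext t
    simp only [Set.mem_singleton_iff]
    constructor
    · rintro ⟨x, y, hx, hy, ht⟩
      rw [mk_one_iff] at hy
      rw [← ht, mk_mul_right _ _ hy, hx]
    · rintro rfl
      obtain ⟨g, hg⟩ := mk_surj t
      exact ⟨g, 1, hg, rfl, by rw [mul_one, hg]⟩
  mem_star := by
    rintro p q r ⟨x, y, rfl, rfl, rfl⟩
    constructor
    · exact ⟨x⁻¹, x * y, rfl, rfl, by congr 1; group⟩
    · exact ⟨x * y, y⁻¹, rfl, rfl, by congr 1; group⟩

lemma mem_hyp_mul {p q r : DC A} :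
    r ∈ (hyp A).mul p q ↔ ∃ x y, mk A x = p ∧ mk A y = q ∧ mk A (x * y) = r := Iff.rfl

lemma mem_prod {P Q : Set (DC A)} {r : DC A} :
    r ∈ (hyp A).prod P Q ↔ ∃ x y, mk A x ∈ P ∧ mk A y ∈ Q ∧ mk A (x * y) = r := by
  unfold Hypergroup.prod
  simp only [Set.mem_iUnion, exists_prop]
  constructor
  · rintro ⟨p, hp, q, hq, x, y, hx, hy, h⟩
    exact ⟨x, y, by rw [hx]; exact hp, by rw [hy]; exact hq, h⟩
  · rintro ⟨x, y, hx, hy, h⟩
    exact ⟨_, hx, _, hy, x, y, rfl, rfl, h⟩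

/-- the subgroup of `G` belonging to a closed subset -/
def sub {F : Set (DC A)} (hF : (hyp A).IsClosed F) : Subgroup G where
  carrier := {g | mk A g ∈ F}
  one_mem' := by
    obtain ⟨f, hf⟩ := hF.1
    obtain ⟨g, rfl⟩ := mk_surj f
    apply hF.2
    rw [mem_prod]
    exact ⟨g⁻¹, g, ⟨mk A g, hf, rfl⟩, hf, by rw [inv_mul_cancel]⟩
  inv_mem' := by
    intro g hg
    have h1 : mk A (1 : G) ∈ F := by
      apply hF.2
      rw [mem_prod]
      exact ⟨g⁻¹, g, ⟨mk A g, hg, rfl⟩, hg, by rw [inv_mul_cancel]⟩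
    apply hF.2
    rw [mem_prod]
    exact ⟨g⁻¹, 1, ⟨mk A g, hg, rfl⟩, h1, by rw [mul_one]⟩
  mul_mem' := by
    intro x y hx hy
    have h1 : mk A (1 : G) ∈ F := by
      apply hF.2
      rw [mem_prod]
      exact ⟨x⁻¹, x, ⟨mk A x, hx, rfl⟩, hx, by rw [inv_mul_cancel]⟩
    have h2 : mk A (x⁻¹) ∈ F := by
      apply hF.2
      rw [mem_prod]
      exact ⟨x⁻¹, 1, ⟨mk A x, hx, rfl⟩, h1, by rw [mul_one]⟩
    apply hF.2
    rw [mem_prod]
    refine ⟨x, y, ⟨mk A x⁻¹, h2, ?_⟩, hy, rfl⟩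
    change starDC (mk A x⁻¹) = _
    rw [starDC_mk, inv_inv]

lemma mem_sub {F : Set (DC A)} (hF : (hyp A).IsClosed F) {g : G} : g ∈ sub hF ↔ mk A g ∈ F :=
  Iff.rfl

lemma le_sub {F : Set (DC A)} (hF : (hyp A).IsClosed F) : A ≤ sub hF := by
  intro a ha
  rw [mem_sub, mk_one_iff.mpr ha]
  exact (sub hF).one_mem

/-- the closed subset belonging to a subgroup above `A` -/
def im (A B : Subgroup G) : Set (DC A) := {p | ∃ g ∈ B, mk A g = p}

lemma mk_mem_im {B : Subgroup G} (hB : A ≤ B) {g : G} : mk A g ∈ im A B ↔ g ∈ B := by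
  constructor
  · rintro ⟨x, hx, h⟩
    obtain ⟨a, ha, b, hb, hab⟩ := mk_eq.mp h
    rw [hab]
    exact B.mul_mem (B.mul_mem (hB ha) hx) (hB hb)
  · intro h
    exact ⟨g, h, rfl⟩

lemma im_sub {F : Set (DC A)} (hF : (hyp A).IsClosed F) : im A (sub hF) = F := by
  ext p
  obtain ⟨g, rfl⟩ := mk_surj p
  rw [mk_mem_im (le_sub hF), mem_sub]

lemma im_top : im A (⊤ : Subgroup G) = Set.univ := by
  ext p
  obtain ⟨g, rfl⟩ := mk_surj p
  simp [mk_mem_im (le_top : A ≤ ⊤)]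

lemma im_closed {B : Subgroup G} (hB : A ≤ B) : (hyp A).IsClosed (im A B) := by
  constructor
  · exact ⟨mk A 1, (mk_mem_im hB).mpr B.one_mem⟩
  · intro r hr
    obtain ⟨x, y, ⟨z, hz, hzx⟩, hy, rfl⟩ := mem_prod.mp hr
    obtain ⟨g, rfl⟩ := mk_surj z
    rw [mk_mem_im hB] at hz hy ⊢
    have h1 : mk A g⁻¹ = mk A x := hzx
    have h2 : mk A x ∈ im A B := by
      rw [← h1, mk_mem_im hB]
      exact B.inv_mem hz
    rw [mk_mem_im hB] at h2
    exact B.mul_mem h2 hy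

/-- `B` is normalised by `C`. -/
lemma im_normal {B C : Subgroup G} (hB : A ≤ B) (hBC : B ≤ C)
    (hn : ∀ c ∈ C, ∀ b ∈ B, c⁻¹ * b * c ∈ B) : (hyp A).NormalIn (im A B) (im A C) := by
  intro h hh r hr
  obtain ⟨x, y, hx, hy, rfl⟩ := mem_prod.mp hr
  rw [Set.mem_singleton_iff] at hy
  subst hy
  rw [mk_mem_im hB] at hx
  rw [mk_mem_im (hB.trans hBC)] at hh
  rw [mem_prod]
  refine ⟨y, y⁻¹ * x * y, rfl, ?_, ?_⟩
  · rw [mk_mem_im hB]
    exact hn y hh x hx
  · congr 1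
    group

lemma im_stronglyNormal {B C : Subgroup G} (hB : A ≤ B) (hBC : B ≤ C)
    (hn : ∀ c ∈ C, ∀ b ∈ B, c⁻¹ * b * c ∈ B) : (hyp A).StronglyNormalIn (im A B) (im A C) := by
  intro h hh r hr
  obtain ⟨z, y, hz, hy, rfl⟩ := mem_prod.mp hr
  obtain ⟨u, x, hu, hx, hzz⟩ := mem_prod.mp hz
  rw [Set.mem_singleton_iff] at hy hu
  subst hy
  have hu' : mk A u = mk A y⁻¹ := hu
  rw [mk_mem_im hB] at hx
  rw [mk_mem_im (hB.trans hBC)] at hh
  rw [mk_mem_im hB]
  obtain ⟨a, ha, b, hb, hab⟩ := mk_eq.mp hu'.symm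
  obtain ⟨c, hc, d, hd, hcd⟩ := mk_eq.mp hzz
  have h1 : z * y = (c * a) * (y⁻¹ * (b * x * d) * y) := by
    rw [hcd, hab]; group
  rw [h1]
  refine B.mul_mem (B.mul_mem (hB hc) (hB ha)) (hn y hh _ ?_)
  exact B.mul_mem (B.mul_mem (hB hb) hx) (hB hd)

/-- the chain of closed subsets coming from a subnormal chain `B ≤ N ≤ G` of length two. -/
lemma chain_two {B N : Subgroup G} (hB : A ≤ B) (hBN : B ≤ N)
    (h1 : ∀ c ∈ N, ∀ b ∈ B, c⁻¹ * b * c ∈ B) (h2 : ∀ c : G, ∀ b ∈ N, c⁻¹ * b * c ∈ N) :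
    (hyp A).Subnormal (im A B) ∧ (hyp A).StronglySubnormal (im A B) := by
  have hN := hB.trans hBN
  have himBN : im A B ⊆ im A N := by
    rintro p ⟨g, hg, rfl⟩
    exact ⟨g, hBN hg, rfl⟩
  have htop : A ≤ (⊤ : Subgroup G) := le_top
  let C : ℕ → Set (DC A) := fun i => match i with
    | 0 => im A B
    | 1 => im A N
    | _ => Set.univ
  have hcl : ∀ i ≤ 2, (hyp A).IsClosed (C i) := by
    intro i hi
    interval_cases i
    · exact im_closed hB
    · exact im_closed hN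
    · change (hyp A).IsClosed Set.univ
      rw [← im_top]
      exact im_closed htop
  refine ⟨⟨2, C, by norm_num, rfl, rfl, hcl, ?_⟩, ⟨2, C, by norm_num, rfl, rfl, hcl, ?_⟩⟩
  · intro i hi
    interval_cases i
    · exact ⟨himBN, im_normal hB hBN h1⟩
    · refine ⟨Set.subset_univ _, ?_⟩
      change (hyp A).NormalIn (im A N) Set.univ
      rw [← im_top]
      exact im_normal hN le_top (fun c _ b hb => h2 c b hb)
  · intro i hi
    interval_cases i
    · exact ⟨himBN, im_stronglyNormal hB hBN h1⟩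
    · refine ⟨Set.subset_univ _, ?_⟩
      change (hyp A).StronglyNormalIn (im A N) Set.univ
      rw [← im_top]
      exact im_stronglyNormal hN le_top (fun c _ b hb => h2 c b hb)

lemma one_mul_DC (p : DC A) : (hyp A).mul (mk A 1) p = {p} := by
  ext r
  simp only [Set.mem_singleton_iff, mem_hyp_mul]
  constructor
  · rintro ⟨x, y, hx, hy, rfl⟩
    rw [mk_one_iff] at hx
    rw [mk_mul_left _ _ hx, hy]
  · rintro rfl
    obtain ⟨g, rfl⟩ := mk_surj r
    exact ⟨1, g, rfl, rfl, by rw [one_mul]⟩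

end Q17.Hyp
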