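import Mathlib

/-! Hypergroups: closed subsets, (strong) subnormality, centre, upper central series. -/

namespace Q17.Hyp

/-- A hypergroup on `H`: a set-valued product `mul` with (H1) `p(qr) = (pq)r`, (H2) a neutral
element `one` with `s one = {s}`, and (H3) a map `s ↦ star s` such that `r ∈ pq` implies
`q ∈ (star p) r` and `p ∈ r (star q)`. -/
structure Hypergroup (H : Type) where
  /-- the product, a map from `H × H` to the power set of `H` -/
  mul : H → H → Set H
  /-- the neutral element -/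
  one : H
  /-- the map `s ↦ s*` -/
  star : H → H
  /-- (H1), with the complex products written out -/
  assoc : ∀ p q r : H, (⋃ s ∈ mul q r, mul p s) = ⋃ s ∈ mul p q, mul s r
  /-- (H2) -/
  mul_one : ∀ s : H, mul s one = {s}
  /-- (H3) -/
  mem_star : ∀ p q r : H, r ∈ mul p q → q ∈ mul (star p) r ∧ p ∈ mul r (star q)

namespace Hypergroup

variable {H : Type} (𝓗 : Hypergroup H)

/-- The complex product `PQ`, the union of all `pq` with `p ∈ P`, `q ∈ Q`. -/
def prod (P Q : Set H) : Set H := ⋃ p ∈ P, ⋃ q ∈ Q, 𝓗.mul p q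

/-- `F` is closed: nonempty with `F* F ⊆ F`. -/
def IsClosed (F : Set H) : Prop := F.Nonempty ∧ 𝓗.prod (𝓗.star '' F) F ⊆ F

/-- `F` is normal in `E`: `F h ⊆ h F` for every `h ∈ E`. -/
def NormalIn (F E : Set H) : Prop := ∀ h ∈ E, 𝓗.prod F {h} ⊆ 𝓗.prod {h} F

/-- `F` is strongly normal in `E`: `h* F h ⊆ F` for every `h ∈ E`. -/
def StronglyNormalIn (F E : Set H) : Prop :=
  ∀ h ∈ E, 𝓗.prod (𝓗.prod {𝓗.star h} F) {h} ⊆ F

/-- `F` is subnormal in `H`: there are closed subsets `F = C 0 ⊆ C 1 ⊆ ⋯ ⊆ C n = H`, `n ≥ 1`, each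
normal in the next. -/
def Subnormal (F : Set H) : Prop :=
  ∃ (n : ℕ) (C : ℕ → Set H), 1 ≤ n ∧ C 0 = F ∧ C n = Set.univ ∧ (∀ i ≤ n, 𝓗.IsClosed (C i)) ∧
    ∀ i < n, C i ⊆ C (i + 1) ∧ 𝓗.NormalIn (C i) (C (i + 1))

/-- `F` is strongly subnormal in `H`: the same with strong normality. -/
def StronglySubnormal (F : Set H) : Prop :=
  ∃ (n : ℕ) (C : ℕ → Set H), 1 ≤ n ∧ C 0 = F ∧ C n = Set.univ ∧ (∀ i ≤ n, 𝓗.IsClosed (C i)) ∧
    ∀ i < n, C i ⊆ C (i + 1) ∧ 𝓗.StronglyNormalIn (C i) (C (i + 1))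

/-- The element `h^F = F h F` of the quotient `H // F`. -/
def cls (F : Set H) (h : H) : Set H := 𝓗.prod (𝓗.prod F {h}) F

/-- The product `a^F · b^F = {x^F : x ∈ a F b}` of the quotient `H // F`. -/
def quotMul (F : Set H) (a b : H) : Set (Set H) :=
  {C | ∃ x ∈ 𝓗.prod (𝓗.prod {a} F) {b}, C = 𝓗.cls F x}

/-- The set of all `h` such that `h^F` lies in the centre of `H // F`: it commutes with every
`x^F`, and `(h^F)* h^F` is the singleton of the neutral element `1^F`. -/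
def centreOver (F : Set H) : Set H :=
  {h | (∀ x, 𝓗.quotMul F h x = 𝓗.quotMul F x h) ∧
    𝓗.quotMul F (𝓗.star h) h = {𝓗.cls F 𝓗.one}}

/-- The centre `Z(H)`: all `h` with `hx = xh` for all `x`, and `h* h = {1}`. -/
def centre : Set H := {h | (∀ x, 𝓗.mul h x = 𝓗.mul x h) ∧ 𝓗.mul (𝓗.star h) h = {𝓗.one}}

/-- The upper central series: `Z_0(H) = {1}` and `Z_{n+1}(H)` is the set of all `h` such that
`h^{Z_n(H)}` lies in the centre of `H // Z_n(H)`. -/
def upperCentral : ℕ → Set H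
  | 0 => {𝓗.one}
  | n + 1 => 𝓗.centreOver (upperCentral n)

/-- `H` is weakly nilpotent: some term of the upper central series is `H`. -/
def WeaklyNilpotent : Prop := ∃ n, 𝓗.upperCentral n = Set.univ

end Hypergroup

end Q17.Hyp
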