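import Pool.Agent.Q17.Hyp.DC

/-! The hypergroup `G // A` for `G` the affine group of the field with eight elements and `A` a
subgroup of order two of the translations. -/

namespace Q17.Hyp

/-- Affine maps `x ↦ v + c x` of `F`. -/
@[ext] structure Aff (F : Type) [Field F] where
  /-- the translation part -/
  v : F
  /-- the scalar part -/
  c : Fˣ

variable {F : Type} [Field F]

instance : Mul (Aff F) := ⟨fun a b => ⟨a.v + (a.c : F) * b.v, a.c * b.c⟩⟩
instance : One (Aff F) := ⟨⟨0, 1⟩⟩
instance : Inv (Aff F) := ⟨fun a => ⟨-(((a.c⁻¹ : Fˣ) : F) * a.v), a.c⁻¹⟩⟩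

@[simp] lemma mul_v (a b : Aff F) : (a * b).v = a.v + (a.c : F) * b.v := rfl
@[simp] lemma mul_c (a b : Aff F) : (a * b).c = a.c * b.c := rfl
@[simp] lemma one_v : (1 : Aff F).v = 0 := rfl
@[simp] lemma one_c : (1 : Aff F).c = 1 := rfl
@[simp] lemma inv_v (a : Aff F) : (a⁻¹).v = -(((a.c⁻¹ : Fˣ) : F) * a.v) := rfl
@[simp] lemma inv_c (a : Aff F) : (a⁻¹).c = a.c⁻¹ := rfl

instance : Group (Aff F) :=
  Group.ofLeftAxioms
    (by
      intro a b c
      ext
      · simp only [mul_v, mul_c, Units.val_mul]; ring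
      · simp [mul_assoc])
    (by intro a; ext <;> simp)
    (by intro a; ext <;> simp)

/-- As a set, the group is `F × Fˣ`. -/
def equivProd : Aff F ≃ F × Fˣ where
  toFun a := (a.v, a.c)
  invFun p := ⟨p.1, p.2⟩
  left_inv _ := rfl
  right_inv _ := rfl

instance [Finite F] : Finite (Aff F) := Finite.of_equiv _ equivProd.symm

variable (F) in
/-- translations -/
def N : Subgroup (Aff F) where
  carrier := {x | x.c = 1}
  one_mem' := rfl
  mul_mem' := by
    intro x y hx hy
    simp only [Set.mem_ofPred_eq] at *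
    simp [hx, hy]
  inv_mem' := by
    intro x hx
    simp only [Set.mem_ofPred_eq] at *
    simp [hx]

lemma mem_N {x : Aff F} : x ∈ N F ↔ x.c = 1 := Iff.rfl

variable (F) in
/-- the translations by `0` and `1` (in characteristic two) -/
def A [CharP F 2] : Subgroup (Aff F) where
  carrier := {x | (x.v = 0 ∨ x.v = 1) ∧ x.c = 1}
  one_mem' := by simp
  mul_mem' := by
    have h2 : (1 : F) + 1 = 0 := CharTwo.add_self_eq_zero 1
    rintro x y ⟨hx, hx'⟩ ⟨hy, hy'⟩
    refine ⟨?_, by simp [hx', hy']⟩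
    rw [mul_v, hx']
    rcases hx with hx | hx <;> rcases hy with hy | hy <;> simp [hx, hy, h2]
  inv_mem' := by
    have h2 : -(1 : F) = 1 := CharTwo.neg_eq 1
    rintro x ⟨hx, hx'⟩
    refine ⟨?_, by simp [hx']⟩
    rw [inv_v, hx']
    rcases hx with hx | hx <;> simp [hx, h2]

variable [CharP F 2]

lemma mem_A {x : Aff F} : x ∈ A F ↔ (x.v = 0 ∨ x.v = 1) ∧ x.c = 1 := Iff.rfl

lemma A_le_N : A F ≤ N F := fun _ hx => hx.2

lemma N_normal (c : Aff F) (b : Aff F) (hb : b ∈ N F) : c⁻¹ * b * c ∈ N F := by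
  rw [mem_N] at *
  simp [hb]

lemma N_comm (c b : Aff F) (hc : c ∈ N F) (hb : b ∈ N F) : c⁻¹ * b * c = b := by
  rw [mem_N] at *
  ext <;> simp [hb, hc]

/-- A subgroup above `A` containing `(v, c)` with `c` generating `Fˣ` is everything. -/
lemma eq_top_of_mem (B : Subgroup (Aff F)) (hA : A F ≤ B) (g : Aff F) (hg : g ∈ B)
    (hgen : ∀ s : Fˣ, ∃ n : ℕ, s = g.c ^ n) : B = ⊤ := by
  have hpow : ∀ n : ℕ, (g ^ n).c = g.c ^ n := by
    intro n
    induction n with
    | zero => simp
    | succ n ih => rw [pow_succ, mul_c, ih, pow_succ]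
  have h1 : ∀ s : F, (⟨s, 1⟩ : Aff F) ∈ B := by
    intro s
    by_cases hs : s = 0
    · subst hs; exact B.one_mem
    · obtain ⟨n, hn⟩ := hgen (Units.mk0 s hs)
      have h2 : (⟨1, 1⟩ : Aff F) ∈ B := hA ⟨Or.inr rfl, rfl⟩
      have h3 := B.mul_mem (B.mul_mem (B.pow_mem hg n) h2) (B.inv_mem (B.pow_mem hg n))
      convert h3 using 1
      ext
      · simp only [mul_v, mul_c, inv_v, hpow, ← hn]
        simp only [mul_one, Units.val_mk0, Units.val_inv_eq_inv_val]
        field_simp
        ring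
      · simp
  rw [Subgroup.eq_top_iff']
  intro x
  obtain ⟨n, hn⟩ := hgen x.c
  have h4 := B.mul_mem (h1 (x.v - (g ^ n).v)) (B.pow_mem hg n)
  convert h4 using 1
  ext
  · simp
  · simp [hpow, hn]

section eight

variable (h8 : Nat.card F = 8)
include h8

omit [Field F] [CharP F 2] in
lemma finite8 : Finite F := Nat.finite_of_card_ne_zero (by rw [h8]; norm_num)

lemma card_units8 : Nat.card Fˣ = 7 := by
  have := finite8 h8
  have h := Nat.card_eq_card_units_add_one (α := F)
  omega

lemma gen8 (c : Fˣ) (hc : c ≠ 1) (s : Fˣ) : ∃ n : ℕ, s = c ^ n := by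
  have := finite8 h8
  have h7 := card_units8 h8
  have hp : Fact (Nat.Prime 7) := ⟨by norm_num⟩
  have h := mem_powers_of_prime_card (G := Fˣ) (g := c) (g' := s) (p := 7) h7 hc
  obtain ⟨n, hn⟩ := h
  exact ⟨n, hn.symm⟩

/-- Every closed subset of `G // A` is subnormal and strongly subnormal. -/
lemma all_subnormal (E : Set (DC (A F))) (hE : (hyp (A F)).IsClosed E) :
    (hyp (A F)).Subnormal E ∧ (hyp (A F)).StronglySubnormal E := by
  by_cases hN : sub hE ≤ N F
  · rw [← im_sub hE]
    refine chain_two (N := N F) (le_sub hE) hN ?_ ?_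
    · intro c hc b hb
      rw [N_comm c b hc (hN hb)]
      exact hb
    · exact fun c b hb => N_normal c b hb
  · obtain ⟨g, hg, hgN⟩ := SetLike.not_le_iff_exists.mp hN
    rw [mem_N] at hgN
    have htop := eq_top_of_mem (sub hE) (le_sub hE) g hg (gen8 h8 g.c hgN)
    rw [← im_sub hE]
    refine chain_two (N := ⊤) (le_sub hE) le_top ?_ ?_
    · intro c _ b _
      rw [htop]
      trivial
    · intro c b _
      trivial

lemma exists_avoid (a b : F) : ∃ s : F, s ≠ 0 ∧ s ≠ 1 ∧ s ≠ a ∧ s ≠ b := by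
  classical
  have := finite8 h8
  have := Fintype.ofFinite F
  by_contra hcon
  push Not at hcon
  have hsub : (Finset.univ : Finset F) ⊆ {0, 1, a, b} := by
    intro s _
    simp only [Finset.mem_insert, Finset.mem_singleton]
    by_contra h
    push Not at h
    exact h.2.2.2 (hcon s h.1 h.2.1 h.2.2.1)
  have h1 := Finset.card_le_card hsub
  rw [Finset.card_univ, ← Nat.card_eq_fintype_card, h8] at h1
  have h2 : ({0, 1, a, b} : Finset F).card ≤ 4 := Finset.card_le_four
  omega

/-- An element commuting with everything and with `h* h = {1}` is trivial. -/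
lemma centre_trivial (p : DC (A F)) (hcomm : ∀ x, (hyp (A F)).mul p x = (hyp (A F)).mul x p)
    (hstar : (hyp (A F)).mul ((hyp (A F)).star p) p = {(hyp (A F)).one}) : p = mk (A F) 1 := by
  have h2 : (1 : F) + 1 = 0 := CharTwo.add_self_eq_zero 1
  obtain ⟨g, rfl⟩ := mk_surj p
  -- first: `g.c = 1`
  have h1 : mk (A F) (g⁻¹ * (⟨1, 1⟩ * g)) ∈ (hyp (A F)).mul ((hyp (A F)).star (mk (A F) g))
      (mk (A F) g) := by
    refine ⟨g⁻¹, ⟨1, 1⟩ * g, rfl, ?_, rfl⟩
    exact mk_mul_left _ _ ⟨Or.inr rfl, rfl⟩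
  rw [hstar] at h1
  have h3 : g⁻¹ * (⟨1, 1⟩ * g) ∈ A F := mk_one_iff.mp h1
  have hc : g.c = 1 := by
    have h4 := h3.1
    have h5 : (g⁻¹ * (⟨1, 1⟩ * g)).v = ((g.c⁻¹ : Fˣ) : F) := by
      simp only [mul_v, inv_v, inv_c]
      have : ((g.c⁻¹ : Fˣ) : F) * (g.c : F) = 1 := by simp
      simp
      ring
    rw [h5] at h4
    rcases h4 with h4 | h4
    · exact absurd h4 (Units.ne_zero _)
    · have : g.c⁻¹ = 1 := Units.ext h4
      simpa using this
  -- the relation from commuting with `(0, s)`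
  have key : ∀ s : F, s ≠ 0 → g.v + s * g.v = 0 ∨ g.v + s * g.v = 1 ∨ g.v + s * g.v = s ∨
      g.v + s * g.v = 1 + s := by
    intro s hs
    have h6 := hcomm (mk (A F) ⟨0, Units.mk0 s hs⟩)
    have h7 : mk (A F) (g * ⟨0, Units.mk0 s hs⟩) ∈
        (hyp (A F)).mul (mk (A F) ⟨0, Units.mk0 s hs⟩) (mk (A F) g) := by
      rw [← h6]
      exact ⟨_, _, rfl, rfl, rfl⟩
    obtain ⟨x, y, hx, hy, hxy⟩ := h7
    obtain ⟨a, ha, b, hb, hab⟩ := mk_eq.mp hx.symm
    obtain ⟨a', ha', b', hb', hab'⟩ := mk_eq.mp hy.symm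
    obtain ⟨a'', ha'', b'', hb'', hab''⟩ := mk_eq.mp hxy
    have h8' := congrArg Aff.v hab''
    rw [hab, hab'] at h8'
    simp only [mul_v, mul_c, hc, ha.2, hb.2, ha'.2, hb'.2, ha''.2, Units.val_mk0,
      Units.val_one, one_mul, mul_one, mul_zero, add_zero] at h8'
    -- g.v = a''.v + (a.v + s * b.v + s * (a'.v + g.v + b'.v) + s * b''.v)
    have e0 := ha.1
    have e1 := hb.1
    have e2 := ha'.1
    have e3 := hb'.1
    have e4 := ha''.1
    have e5 := hb''.1
    have hg : g.v + s * g.v = (a''.v + a.v) + s * (b.v + a'.v + b'.v + b''.v) := by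
      have hss : s * g.v + s * g.v = 0 := CharTwo.add_self_eq_zero _
      linear_combination h8' + hss
    have t2 : ∀ u w : F, (u = 0 ∨ u = 1) → (w = 0 ∨ w = 1) → (u + w = 0 ∨ u + w = 1) := by
      rintro u w (rfl | rfl) (rfl | rfl) <;> simp [h2]
    have q1 := t2 _ _ e4 e0
    have q2 := t2 _ _ (t2 _ _ (t2 _ _ e1 e2) e3) e5
    rw [hg]
    rcases q1 with q1 | q1 <;> rcases q2 with q2 | q2 <;> rw [q1, q2] <;> simp
  have hv : g.v = 0 ∨ g.v = 1 := by
    by_contra hcon
    push Not at hcon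
    obtain ⟨hv0, hv1⟩ := hcon
    have hv1' : 1 + g.v ≠ 0 := by
      intro h
      apply hv1
      have : g.v = -1 := by linear_combination h
      rw [this, CharTwo.neg_eq]
    obtain ⟨s, hs0, hs1, hs2, hs3⟩ := exists_avoid h8 (1 + 1 / g.v) (g.v / (1 + g.v))
    have hs1' : 1 + s ≠ 0 := by
      intro h
      apply hs1
      have : s = -1 := by linear_combination h
      rw [this, CharTwo.neg_eq]
    have hss : ∀ x : F, x + x = 0 := CharTwo.add_self_eq_zero
    rcases key s hs0 with h | h | h | h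
    · have : (1 + s) * g.v = 0 := by linear_combination h
      rcases mul_eq_zero.mp this with h | h
      · exact hs1' h
      · exact hv0 h
    · apply hs2
      field_simp
      linear_combination h - hss g.v
    · apply hs3
      field_simp
      linear_combination (-1) * h + hss (s * g.v)
    · have : (1 + s) * (g.v - 1) = 0 := by linear_combination h
      rcases mul_eq_zero.mp this with h | h
      · exact hs1' h
      · exact hv1 (sub_eq_zero.mp h)
  exact mk_one_iff.mpr ⟨hv, hc⟩

lemma prod_one_left (p : DC (A F)) : (hyp (A F)).prod {(hyp (A F)).one} {p} = {p} := by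
  unfold Hypergroup.prod
  simp only [Set.mem_singleton_iff, Set.iUnion_iUnion_eq_left]
  exact one_mul_DC p

lemma prod_one_right (p : DC (A F)) : (hyp (A F)).prod {p} {(hyp (A F)).one} = {p} := by
  unfold Hypergroup.prod
  simp only [Set.mem_singleton_iff, Set.iUnion_iUnion_eq_left]
  exact (hyp (A F)).mul_one p

lemma cls_one (p : DC (A F)) : (hyp (A F)).cls {(hyp (A F)).one} p = {p} := by
  unfold Hypergroup.cls
  rw [prod_one_left h8, prod_one_right h8]

lemma quotMul_one (p q : DC (A F)) : (hyp (A F)).quotMul {(hyp (A F)).one} p q =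
    {C | ∃ x ∈ (hyp (A F)).mul p q, C = {x}} := by
  unfold Hypergroup.quotMul
  rw [prod_one_right h8]
  ext C
  simp only [Set.mem_ofPred_eq, cls_one h8]
  unfold Hypergroup.prod
  simp only [Set.mem_singleton_iff, Set.iUnion_iUnion_eq_left]

lemma quotMul_inj {p q p' q' : DC (A F)}
    (h : (hyp (A F)).quotMul {(hyp (A F)).one} p q = (hyp (A F)).quotMul {(hyp (A F)).one} p' q') :
    (hyp (A F)).mul p q = (hyp (A F)).mul p' q' := by
  rw [quotMul_one h8, quotMul_one h8] at h
  ext x
  have h1 := Set.ext_iff.mp h {x}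
  simp only [Set.mem_ofPred_eq, Set.singleton_eq_singleton_iff] at h1
  constructor
  · intro hx
    obtain ⟨y, hy, hxy⟩ := h1.mp ⟨x, hx, rfl⟩
    rw [hxy]; exact hy
  · intro hx
    obtain ⟨y, hy, hxy⟩ := h1.mpr ⟨x, hx, rfl⟩
    rw [hxy]; exact hy

/-- The upper central series is constant. -/
lemma upperCentral_eq (n : ℕ) : (hyp (A F)).upperCentral n = {(hyp (A F)).one} := by
  induction n with
  | zero => rfl
  | succ n ih =>
    change (hyp (A F)).centreOver ((hyp (A F)).upperCentral n) = _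
    rw [ih]
    ext p
    simp only [Set.mem_singleton_iff]
    constructor
    · rintro ⟨h1, h2⟩
      refine centre_trivial h8 p (fun x => quotMul_inj h8 (h1 x)) ?_
      rw [quotMul_one h8, cls_one h8] at h2
      ext x
      have h3 := Set.ext_iff.mp h2 {x}
      simp only [Set.mem_ofPred_eq, Set.singleton_eq_singleton_iff, Set.mem_singleton_iff] at h3
      rw [Set.mem_singleton_iff]
      constructor
      · intro hx
        exact h3.mp ⟨x, hx, rfl⟩
      · intro hx
        obtain ⟨y, hy, hxy⟩ := h3.mpr hx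
        rw [hxy]; exact hy
    · rintro rfl
      constructor
      · intro x
        rw [quotMul_one h8, quotMul_one h8]
        have e1 : (hyp (A F)).mul (hyp (A F)).one x = {x} := one_mul_DC x
        have e2 : (hyp (A F)).mul x (hyp (A F)).one = {x} := (hyp (A F)).mul_one x
        rw [e1, e2]
      · rw [quotMul_one h8, cls_one h8]
        have e3 : (hyp (A F)).star (hyp (A F)).one = (hyp (A F)).one := by
          change mk (A F) (1 : Aff F)⁻¹ = mk (A F) 1
          rw [inv_one]
        rw [e3]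
        have e1 : (hyp (A F)).mul (hyp (A F)).one (hyp (A F)).one = {(hyp (A F)).one} :=
          one_mul_DC _
        rw [e1]
        ext C
        simp

lemma centre_eq : (hyp (A F)).centre = {(hyp (A F)).one} := by
  ext p
  simp only [Set.mem_singleton_iff]
  constructor
  · rintro ⟨h1, h2⟩
    exact centre_trivial h8 p h1 h2
  · rintro rfl
    constructor
    · intro x
      have e1 : (hyp (A F)).mul (hyp (A F)).one x = {x} := one_mul_DC x
      have e2 : (hyp (A F)).mul x (hyp (A F)).one = {x} := (hyp (A F)).mul_one x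
      rw [e1, e2]
    · have e3 : (hyp (A F)).star (hyp (A F)).one = (hyp (A F)).one := by
        change mk (A F) (1 : Aff F)⁻¹ = mk (A F) 1
        rw [inv_one]
      rw [e3]
      exact one_mul_DC _

lemma one_ne_univ : ({(hyp (A F)).one} : Set (DC (A F))) ≠ Set.univ := by
  intro h
  obtain ⟨s, hs0, hs1, -⟩ := exists_avoid h8 0 1
  have h1 : mk (A F) ⟨s, 1⟩ ∈ ({(hyp (A F)).one} : Set (DC (A F))) := by rw [h]; trivial
  have h2 : (⟨s, 1⟩ : Aff F) ∈ A F := mk_one_iff.mp h1
  rcases h2.1 with h3 | h3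
  · exact hs0 h3
  · exact hs1 h3

end eight

end Q17.Hyp
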